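import Pool.Agent.helper88.RTI.SpecA

/-!
# THEOREM R (MP_70a088_an), block I: TDM: thickness is monotone in `s`
-/

set_option autoImplicit false

open Complex Metric Set Filter Topology MeasureTheory
open HY (UD T S hd UN RM)
open JR (it hon HP JJ Bas Gen NF NN)
open RT (Dyn Ok LSq Lv PB VC TD UC cr pd rm)

noncomputable section

namespace RTI

theorem TDM : TDM_stmt := fun _ _ _ hs h =>
  ⟨h.op, h.con, h.cov, fun a ha φ hφ => (h.thk a ha φ hφ).mono (ball_subset_ball hs)⟩

end RTI
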